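import Pool.Agent.H.MP_51fc0b_lc.A

namespace Pool.Agent.Results.MP_3930bf_lc.Hard

open Pool.Agent.Lib.CX Pool.Agent.Lib.ER Pool.Agent.H.MP_51fc0b_lc

/-- the minimum rank over all real values of the variables -/
noncomputable def mr (M : VM) : ℕ := sInf (Set.range fun x : ℕ → ℝ => (M.at x).rank)

theorem result : ∀ ε : ℝ, 0 < ε → ε < 1 / 2 → ∃ f : Fm → VM × ℕ, PT f ∧ ∀ φ, 1 ≤ (f φ).2 ∧
    (ETR φ → mr (f φ).1 ≤ (f φ).2) ∧ (¬ETR φ → (1 + ε) * ((f φ).2 : ℝ) < mr (f φ).1) := by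
  intro ε _ h
  obtain ⟨f, hf, H⟩ := etr_of_qs (B := fun M : VM => ∃ x : ℕ → ℝ, (M.at x).rank ≤ 2) (red 2) (pt_red 2) (red_iff le_rfl)
  refine ⟨fun φ => (f φ, 2), by fun_prop, fun φ => ⟨one_le_two, fun e => ?_, fun e => ?_⟩⟩
  · obtain ⟨x, hx⟩ := (H φ).1 e
    exact (Nat.sInf_le (Set.mem_range_self x)).trans hx
  · obtain ⟨x, hx⟩ := Nat.sInf_mem (Set.range_nonempty fun x : ℕ → ℝ => ((f φ).at x).rank)
    have : 3 ≤ mr (f φ) := by
      by_contra c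
      exact e ((H φ).2 ⟨x, by unfold mr at c; simp only at hx; omega⟩)
    have : (3 : ℝ) ≤ mr (f φ) := by exact_mod_cast this
    simp only [Nat.cast_ofNat]
    linarith

end Pool.Agent.Results.MP_3930bf_lc.Hard
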